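import Pool.Agent.P.MP_418314_co.Series

/-! The tail of the pentagonal number series times `(-q^D; q)_infty` has non-negative
coefficients exactly when `D` is at most `2 k + 1`. -/

namespace Pool.Agent.Results.MP_418314_co.SharpCut

open PowerSeries Pool.Agent.P.MP_418314_co
open scoped PowerSeries.WithPiTopology

/-- The triangular number `T_n = n (n + 1) / 2`. -/
def tri (n : ℕ) : ℕ := n * (n + 1) / 2

/-- The generalised pentagonal number `G_n = ceil(n / 2) * ceil((3 n + 1) / 2) / 2`. -/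
def gp (n : ℕ) : ℕ := ((n + 1) / 2) * ((3 * n + 2) / 2) / 2

lemma tri_two (j : ℕ) : tri (j + 2) = tri j + (2 * j + 3) := by
  unfold tri
  rw [show (j + 2) * (j + 2 + 1) = j * (j + 1) + 2 * (2 * j + 3) by ring, Nat.add_mul_div_left _ _ two_pos]

lemma gp_even (k : ℕ) : gp (2 * k) = k * (3 * k + 1) / 2 := by
  unfold gp
  rw [show (2 * k + 1) / 2 = k by omega, show (3 * (2 * k) + 2) / 2 = 3 * k + 1 by omega]

lemma gp_odd (k : ℕ) : gp (2 * k + 1) = gp (2 * k) + (2 * k + 1) := by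
  rw [gp_even]
  unfold gp
  rw [show (2 * k + 1 + 1) / 2 = k + 1 by omega,
    show (3 * (2 * k + 1) + 2) / 2 = 3 * k + 2 by omega,
    show (k + 1) * (3 * k + 2) = k * (3 * k + 1) + 2 * (2 * k + 1) by ring,
    Nat.add_mul_div_left _ _ two_pos]

lemma gp_next (k : ℕ) : gp (2 * (k + 1)) = gp (2 * k) + (3 * k + 2) := by
  rw [gp_even, gp_even,
    show (k + 1) * (3 * (k + 1) + 1) = k * (3 * k + 1) + 2 * (3 * k + 2) by ring,
    Nat.add_mul_div_left _ _ two_pos]

lemma gp_strict : StrictMono gp := by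
  refine strictMono_nat_of_lt_succ fun n => ?_
  obtain ⟨k, rfl | rfl⟩ := Nat.even_or_odd' n
  · rw [gp_odd]; omega
  · rw [show 2 * k + 1 + 1 = 2 * (k + 1) by ring, gp_next, gp_odd]; omega

lemma summ (k : ℕ) : Summable fun j => (-1 : ℤ⟦X⟧) ^ tri j * X ^ gp (j + 2 * k) := by
  apply PowerSeries.WithPiTopology.summable_of_tendsto_order_atTop_nhds_top
  refine ENat.tendsto_nhds_top_iff_natCast_lt.mpr fun n => Filter.eventually_atTop.mpr ⟨n + 1, ?_⟩
  intro m hm
  refine lt_of_lt_of_le ?_ (le_order_mul _ _)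
  rw [order_X_pow]
  refine lt_of_lt_of_le ?_ le_add_self
  have := gp_strict.le_apply (x := m + 2 * k)
  exact_mod_cast (by omega : n < gp (m + 2 * k))

lemma tails : Tails (fun k => gp (2 * k))
    fun k => ∑' j, (-1 : ℤ⟦X⟧) ^ tri j * X ^ gp (j + 2 * k) where
  gs k := gp_next k
  dv k := by
    refine X_pow_dvd_iff.mpr fun m hm => ?_
    have h1 := (PowerSeries.WithPiTopology.hasSum_iff_hasSum_coeff ℤ).mp (summ k).hasSum m
    have h2 : (fun j => coeff m ((-1 : ℤ⟦X⟧) ^ tri j * X ^ gp (j + 2 * k))) = fun _ => 0 := by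
      funext j
      have := gp_strict.monotone (show 2 * k ≤ j + 2 * k by omega)
      rw [coeff_mul_X_pow', if_neg (by omega)]
    rw [h2] at h1
    exact h1.unique hasSum_zero
  st k := by
    have h0 := summ k
    have h1 := (summable_nat_add_iff 1).mpr h0
    rw [h0.tsum_eq_zero_add, h1.tsum_eq_zero_add]
    have h2 : ∀ j : ℕ, (-1 : ℤ⟦X⟧) ^ tri (j + 1 + 1) * X ^ gp (j + 1 + 1 + 2 * k) =
        -((-1 : ℤ⟦X⟧) ^ tri j * X ^ gp (j + 2 * (k + 1))) := by
      intro j
      rw [show j + 1 + 1 + 2 * k = j + 2 * (k + 1) by ring, show j + 1 + 1 = j + 2 by ring,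
        tri_two, pow_add, Odd.neg_one_pow (n := 2 * j + 3) ⟨j + 1, by ring⟩]
      ring
    simp only [h2]
    rw [tsum_neg, ← gp_odd, zero_add, zero_add, add_comm 1 (2 * k)]
    simp [tri]
    ring

lemma mult (D : ℕ) : Multipliable fun i => (1 : ℤ⟦X⟧) + X ^ (D + i) := by
  apply PowerSeries.WithPiTopology.multipliable_one_add_of_tendsto_order_atTop_nhds_top
  refine ENat.tendsto_nhds_top_iff_natCast_lt.mpr fun n => Filter.eventually_atTop.mpr ⟨n + 1, ?_⟩
  intro m hm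
  rw [order_X_pow]
  exact_mod_cast (by omega : n < D + m)

lemma prod_trunc (D M : ℕ) : X ^ M ∣ (∏' i, ((1 : ℤ⟦X⟧) + X ^ (D + i))) -
    ∏ i ∈ Finset.range M, (1 + X ^ (D + i)) := by
  refine X_pow_dvd_iff.mpr fun m hm => ?_
  rw [map_sub, sub_eq_zero]
  have h1 := ((PowerSeries.WithPiTopology.continuous_coeff ℤ m).tendsto _).comp
    (mult D).hasProd.tendsto_prod_nat
  have h2 : ∀ N, X ^ M ∣ (∏ i ∈ Finset.range (M + N), ((1 : ℤ⟦X⟧) + X ^ (D + i))) -
      ∏ i ∈ Finset.range M, (1 + X ^ (D + i)) := by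
    intro N
    induction N with
    | zero => simp
    | succ N ih =>
      rw [← add_assoc, Finset.prod_range_succ, mul_add, mul_one, add_sub_right_comm]
      exact dvd_add ih (Dvd.dvd.mul_left (pow_dvd_pow _ (by omega)) _)
  refine tendsto_nhds_unique h1 (tendsto_const_nhds.congr' ?_)
  refine Filter.eventually_atTop.mpr ⟨M, fun N hN => ?_⟩
  obtain ⟨u, rfl⟩ := Nat.exists_eq_add_of_le hN
  exact (coeff_cong (h2 u) hm).symm

theorem result (k D : ℕ) (hk : 1 ≤ k) (hD : 1 ≤ D) :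
    ∃ P A : PowerSeries ℤ,
      HasProd (fun i : ℕ => (1 : PowerSeries ℤ) + PowerSeries.X ^ (D + i)) P ∧
      HasSum (fun j : ℕ => (-1 : PowerSeries ℤ) ^ tri j * PowerSeries.X ^ gp (j + 2 * k)) A ∧
      ((∀ n : ℕ, 0 ≤ PowerSeries.coeff n (P * A)) ↔ D ≤ 2 * k + 1) :=
  ⟨_, _, (mult D).hasProd, (summ k).hasSum, tails.main hk hD _ (prod_trunc D)⟩

end Pool.Agent.Results.MP_418314_co.SharpCut
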